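import Pool.Agent.W998.TwoHead
import Pool.Agent.Results.MP_773080_lc.RocNotGPrincipal

set_option autoImplicit false

/-!
# Cycles in runs of automata reading a word from both ends
-/

namespace Pool.Agent.W998

open Pool.Agent.Results.MP_773080_lc.RocNotGPrincipal (rep rep_zero rep_succ rep_succ' rep_add
  rep_one rep_nil)

theorem pigeon {V : Type} [Finite V] (C n : ℕ) (v : ℕ → V) (a : ℕ → ℕ) (ha : ∀ i ≤ n, a i < C)
    (hn : Nat.card V * C ≤ n) : ∃ i j, i < j ∧ j ≤ n ∧ v i = v j ∧ a i = a j := by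
  by_contra hcon
  push Not at hcon
  have hinj : Function.Injective (fun i : Fin (n + 1) =>
      ((v i, ⟨a i, ha i (by omega)⟩) : V × Fin C)) := by
    intro i j h
    simp only [Prod.mk.injEq, Fin.mk.injEq] at h
    by_contra hne
    rcases lt_or_gt_of_ne hne with hl | hl
    · exact hcon i j hl (by omega) h.1 h.2
    · exact hcon j i hl (by omega) h.1.symm h.2.symm
  have := Nat.card_le_card_of_injective _ hinj
  rw [Nat.card_prod, Nat.card_eq_fintype_card, Nat.card_eq_fintype_card (α := Fin _),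
    Fintype.card_fin, Fintype.card_fin] at this
  omega

theorem length_rep {Y : Type} (n : ℕ) (u : List Y) : (rep n u).length = n * u.length := by
  induction n with
  | zero => simp
  | succ n ih => rw [rep_succ, List.length_append, ih]; ring

theorem rep_remove {Y : Type} {γ τ μ σ : List Y} {k t : ℕ} (hγ : 0 < γ.length)
    (h : rep k γ = τ ++ (μ ++ σ)) (hμ : μ.length = t * γ.length) :
    t ≤ k ∧ τ ++ σ = rep (k - t) γ := by
  have hlen : k * γ.length = τ.length + (t * γ.length + σ.length) := by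
    rw [← length_rep, h, List.length_append, List.length_append, hμ]
  have htk : t ≤ k := by
    by_contra hcon
    push Not at hcon
    have := Nat.mul_lt_mul_of_pos_right hcon hγ
    omega
  refine ⟨htk, ?_⟩
  obtain ⟨s, rfl⟩ : ∃ s, k = t + s := ⟨k - t, by omega⟩
  have hs : τ.length + σ.length = s * γ.length := by
    rw [Nat.add_mul] at hlen
    omega
  rw [Nat.add_sub_cancel_left]
  have h1 : rep (t + s) γ = rep s γ ++ rep t γ := by rw [Nat.add_comm, rep_add]
  have h2 : rep (t + s) γ = rep t γ ++ rep s γ := rep_add _ _ _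
  have e1 : τ = (rep s γ).take τ.length := by
    have : τ = (rep (t + s) γ).take τ.length := by rw [h, List.take_left]
    rw [h1, List.take_append_of_le_length (by rw [length_rep]; omega)] at this
    exact this
  have e2 : σ = (rep s γ).drop τ.length := by
    have h3 : σ = (rep (t + s) γ).drop (τ ++ μ).length := by
      rw [h, ← List.append_assoc, List.drop_left]
    rw [h2, List.length_append, Nat.add_comm, ← List.drop_drop, hμ, ← length_rep,
      List.drop_left] at h3
    exact h3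
  rw [e2]
  nth_rewrite 1 [e1]
  exact List.take_append_drop _ _

namespace TwoHead

variable {Y V : Type} {A : TwoHead Y V}

theorem Run.split_left' {q t : V} {σ α β : List Y} (h : A.Run q (σ ++ α) β t) :
    ∃ r β1 β2, A.Run q σ β1 r ∧ A.Run r α β2 t ∧ β = β2 ++ β1 := by
  obtain ⟨r, β1, β2, h1, h2, h3⟩ := h.split_left σ.length (by simp)
  rw [List.take_left] at h1
  rw [List.drop_left] at h2
  exact ⟨r, β1, β2, h1, h2, h3⟩

theorem Run.split_right' {q t : V} {σ α β : List Y} (h : A.Run q α (β ++ σ) t) :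
    ∃ r α1 α2, A.Run q α1 σ r ∧ A.Run r α2 β t ∧ α = α1 ++ α2 := by
  obtain ⟨r, α1, α2, β1, β2, h1, h2, h3, h4, h5⟩ := h.split_right σ.length (by simp)
  obtain ⟨rfl, rfl⟩ := List.append_inj' h4 h5.symm
  exact ⟨r, α1, α2, h1, h2, h3⟩

theorem Run.chain_left {Z : List Y} : ∀ (n : ℕ) {q r : V} {α ρ : List Y},
    A.Run q (rep n Z ++ α) ρ r →
    ∃ (v : ℕ → V) (R : ℕ → List Y), v 0 = q ∧ R 0 = [] ∧
      (∀ i < n, ∃ μ, A.Run (v i) Z μ (v (i + 1)) ∧ R (i + 1) = μ ++ R i) ∧
      ∃ μ, A.Run (v n) α μ r ∧ ρ = μ ++ R n := by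
  intro n
  induction n with
  | zero =>
    intro q r α ρ h
    exact ⟨fun _ => q, fun _ => [], rfl, rfl, by simp, ρ, by simpa using h, by simp⟩
  | succ n ih =>
    intro q r α ρ h
    rw [rep_succ, List.append_assoc] at h
    obtain ⟨p, β1, β2, h1, h2, h3⟩ := h.split_left'
    obtain ⟨v, R, hv, hR, h4, μ, h5, h6⟩ := ih h2
    refine ⟨fun i => Nat.casesOn i q v, fun i => Nat.casesOn i [] (fun j => R j ++ β1), rfl, rfl,
      ?_, μ, h5, ?_⟩
    · intro i hi
      cases i with
      | zero => exact ⟨β1, by simpa [hv] using h1, by simp [hR]⟩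
      | succ i =>
        obtain ⟨μ, h7, h8⟩ := h4 i (by omega)
        exact ⟨μ, h7, by simp [h8]⟩
    · rw [h3, h6]; simp

theorem comp_left {Z : List Y} {v : ℕ → V} {R : ℕ → List Y} {n : ℕ}
    (h : ∀ i < n, ∃ μ, A.Run (v i) Z μ (v (i + 1)) ∧ R (i + 1) = μ ++ R i) :
    ∀ i d, i + d ≤ n → ∃ μ, A.Run (v i) (rep d Z) μ (v (i + d)) ∧ R (i + d) = μ ++ R i := by
  intro i d
  induction d with
  | zero => intro _; exact ⟨[], Run.nil _, by simp⟩
  | succ d ih =>
    intro hd
    obtain ⟨μ, h1, h2⟩ := ih (by omega)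
    obtain ⟨μ', h3, h4⟩ := h (i + d) (by omega)
    refine ⟨μ' ++ μ, ?_, ?_⟩
    · rw [rep_succ']; exact h1.trans' h3
    · rw [← Nat.add_assoc, h4, h2, List.append_assoc]

theorem Run.chain_right {γ : List Y} : ∀ (n : ℕ) {q r : V} {α ρ : List Y},
    A.Run q α (ρ ++ rep n γ) r →
    ∃ (v : ℕ → V) (L : ℕ → List Y), v 0 = q ∧ L 0 = [] ∧
      (∀ i < n, ∃ l, A.Run (v i) l γ (v (i + 1)) ∧ L (i + 1) = L i ++ l) ∧
      ∃ l, A.Run (v n) l ρ r ∧ α = L n ++ l := by
  intro n
  induction n with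
  | zero =>
    intro q r α ρ h
    exact ⟨fun _ => q, fun _ => [], rfl, rfl, by simp, α, by simpa using h, by simp⟩
  | succ n ih =>
    intro q r α ρ h
    rw [rep_succ', ← List.append_assoc] at h
    obtain ⟨p, α1, α2, h1, h2, h3⟩ := h.split_right'
    obtain ⟨v, L, hv, hL, h4, l, h5, h6⟩ := ih h2
    refine ⟨fun i => Nat.casesOn i q v, fun i => Nat.casesOn i [] (fun j => α1 ++ L j), rfl, rfl,
      ?_, l, h5, ?_⟩
    · intro i hi
      cases i with
      | zero => exact ⟨α1, by simpa [hv] using h1, by simp [hL]⟩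
      | succ i =>
        obtain ⟨μ, h7, h8⟩ := h4 i (by omega)
        exact ⟨μ, h7, by simp [h8]⟩
    · rw [h3, h6]; simp

theorem comp_right {γ : List Y} {v : ℕ → V} {L : ℕ → List Y} {n : ℕ}
    (h : ∀ i < n, ∃ l, A.Run (v i) l γ (v (i + 1)) ∧ L (i + 1) = L i ++ l) :
    ∀ i d, i + d ≤ n → ∃ l, A.Run (v i) l (rep d γ) (v (i + d)) ∧ L (i + d) = L i ++ l := by
  intro i d
  induction d with
  | zero => intro _; exact ⟨[], Run.nil _, by simp⟩
  | succ d ih =>
    intro hd
    obtain ⟨μ, h1, h2⟩ := ih (by omega)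
    obtain ⟨μ', h3, h4⟩ := h (i + d) (by omega)
    refine ⟨μ ++ μ', ?_, ?_⟩
    · rw [rep_succ]; exact h1.trans' h3
    · rw [← Nat.add_assoc, h4, h2, List.append_assoc]

/-- The head on the right does not read the whole block `γ^k` while the head on the left reads a
short word. -/
theorem right_bound [Finite V] {X B γ δ : List Y} {k : ℕ} (hk : Nat.card V * (X.length + 1) ≤ k)
    (h2 : ∀ l < k, X ++ (B ++ (rep l γ ++ δ)) ∉ A.language)
    {α1 α2 ρ1 ρ2 : List Y} {r f : V} (h3 : A.Run A.init α1 ρ1 r) (h4 : A.Run r α2 ρ2 f)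
    (hf : A.fin f) (hw : α1 ++ (α2 ++ (ρ2 ++ ρ1)) = X ++ (B ++ (rep k γ ++ δ)))
    (hX : α1.length ≤ X.length) : ρ1.length < (rep k γ ++ δ).length := by
  by_contra hcon
  push Not at hcon
  obtain ⟨ρ', rfl⟩ : (rep k γ ++ δ) <:+ ρ1 := by
    refine List.suffix_of_suffix_length_le (l₃ := X ++ (B ++ (rep k γ ++ δ))) ?_ ?_ hcon
    · exact ⟨X ++ B, by simp⟩
    · exact ⟨α1 ++ (α2 ++ ρ2), by rw [← hw]; simp⟩
  have hw' : α1 ++ (α2 ++ (ρ2 ++ ρ')) = X ++ B := by
    have : (α1 ++ (α2 ++ (ρ2 ++ ρ'))) ++ (rep k γ ++ δ) = (X ++ B) ++ (rep k γ ++ δ) := by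
      simpa using hw
    exact List.append_cancel_right this
  rw [← List.append_assoc] at h3
  obtain ⟨p, l0, l1, h5, h6, rfl⟩ := h3.split_right'
  obtain ⟨v, L, hv, hL, h7, l, h8, rfl⟩ := h6.chain_right k
  have hLle : ∀ i ≤ k, (L i).length < X.length + 1 := by
    intro i hi
    obtain ⟨l', _, h9⟩ := comp_right h7 i (k - i) (by omega)
    rw [show i + (k - i) = k by omega] at h9
    rw [h9] at hX
    simp only [List.length_append] at hX
    omega
  obtain ⟨i, j, hij, hj, he, hl⟩ := pigeon (X.length + 1) k v (fun i => (L i).length) hLle hk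
  obtain ⟨m0, h9, h10⟩ := comp_right h7 0 i (by omega)
  obtain ⟨m1, h11, h12⟩ := comp_right h7 i (j - i) (by omega)
  obtain ⟨m2, h13, h14⟩ := comp_right h7 j (k - j) (by omega)
  rw [show i + (j - i) = j by omega] at h11 h12
  rw [show j + (k - j) = k by omega] at h13 h14
  rw [show 0 + i = i by omega, hL, List.nil_append] at h10
  rw [show 0 + i = i by omega, hv] at h9
  have hm1 : m1 = [] := by
    rw [h12] at hl
    simp only [List.length_append] at hl
    exact List.length_eq_zero_iff.1 (by omega)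
  subst hm1
  rw [List.append_nil] at h12
  rw [← he] at h13
  have h15 := h5.trans' (h9.trans' (h13.trans' (h8.trans' h4)))
  refine h2 (k - j + i) (by omega) ⟨_, _, f, hf, h15, ?_⟩
  rw [← List.append_assoc X, ← hw', rep_add, h14, h12, h10]
  simp

/-- The position modulo the period. -/
def cls (D c x : ℕ) : ℕ := if x < D then x else D + (x - D) % c

theorem cls_lt {D c : ℕ} (hc : 0 < c) (x : ℕ) : cls D c x < D + c := by
  unfold cls
  split_ifs with h
  · omega
  · have := Nat.mod_lt (x - D) hc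
    omega

theorem cls_eq {D c x y : ℕ} (h : cls D c x = cls D c (y + x)) (hy : 0 < y) :
    D ≤ x ∧ ∃ t, y = t * c := by
  unfold cls at h
  split_ifs at h with h1 h2 h2
  · omega
  · omega
  · omega
  · refine ⟨by omega, ?_⟩
    have h3 : (x - D) % c = (y + x - D) % c := by omega
    have h4 : (x - D) ≡ (y + x - D) [MOD c] := h3
    have h5 := (Nat.modEq_iff_dvd' (by omega)).1 h4
    obtain ⟨t, ht⟩ := h5
    exact ⟨t, by rw [Nat.mul_comm]; omega⟩

/-- The cycles. -/
theorem core [Finite V] {P Z γ δ : List Y} {B : ℕ → List Y}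
    (h1 : ∀ n k, (P ++ rep n Z) ++ (B k ++ (rep k γ ++ δ)) ∈ A.language)
    (h2 : ∀ n k l, l < k → (P ++ rep n Z) ++ (B k ++ (rep l γ ++ δ)) ∉ A.language) :
    ∃ (y : V) (a j M k : ℕ) (ρ l ρ' : List Y) (f : V), 1 ≤ a ∧ A.Run y (rep a Z) [] y ∧
      A.Run A.init (P ++ rep j Z) ρ y ∧ A.fin f ∧ A.Run y (rep M Z ++ l) ρ' f ∧
      l ++ (ρ' ++ ρ) = B k ++ (rep k γ ++ δ) := by
  have hγ : 0 < γ.length := by
    rcases Nat.eq_zero_or_pos γ.length with h | h
    · exfalso
      have h : γ = [] := List.length_eq_zero_iff.1 h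
      subst h
      refine h2 0 1 0 (by omega) ?_
      simpa using h1 0 1
    · exact h
  obtain ⟨n, hn⟩ : ∃ n, n = Nat.card V * (δ.length + γ.length) := ⟨_, rfl⟩
  obtain ⟨k, hk⟩ : ∃ k, k = Nat.card V * ((P ++ rep n Z).length + 1) := ⟨_, rfl⟩
  obtain ⟨α, β, f, hf, hrun, hw⟩ := h1 n k
  have hlenw := congrArg List.length hw
  rw [List.length_append, List.length_append (as := α), List.length_append (as := B k)] at hlenw
  rcases Nat.lt_or_ge α.length (P ++ rep n Z).length with hlt | hge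
  · exfalso
    have := right_bound (k := k) hk.ge (h2 n k) hrun (Run.nil f) hf (by rw [hw]; simp) hlt.le
    omega
  obtain ⟨α2, rfl⟩ : (P ++ rep n Z) <+: α := by
    refine List.prefix_of_prefix_length_le (l₃ := α ++ β) ?_ ?_ hge
    · exact ⟨_, hw⟩
    · exact ⟨β, rfl⟩
  obtain ⟨r, β1, β2, h3, h4, rfl⟩ := hrun.split_left'
  have hb := right_bound (k := k) hk.ge (h2 n k) h3 h4 hf (by rw [hw]; simp) le_rfl
  have hw' : α2 ++ (β2 ++ β1) = B k ++ (rep k γ ++ δ) := by
    have : (P ++ rep n Z) ++ (α2 ++ (β2 ++ β1)) = (P ++ rep n Z) ++ (B k ++ (rep k γ ++ δ)) := by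
      rw [hw]
      simp
    exact List.append_cancel_left this
  obtain ⟨p, μ0, μ1, h5, h6, rfl⟩ := h3.split_left'
  rw [← List.append_nil (rep n Z)] at h6
  obtain ⟨v, R, hv, hR, h7, μ, h8, rfl⟩ := h6.chain_left n
  obtain ⟨i, j, hij, hj, he, hl⟩ := pigeon (δ.length + γ.length) n v
    (fun i => cls δ.length γ.length (R i ++ μ0).length) (fun i _ => cls_lt hγ _) hn.ge
  obtain ⟨m0, h9, h10⟩ := comp_left h7 0 i (by omega)
  obtain ⟨m1, h11, h12⟩ := comp_left h7 i (j - i) (by omega)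
  obtain ⟨m2, h13, h14⟩ := comp_left h7 j (n - j) (by omega)
  rw [show i + (j - i) = j by omega] at h11 h12
  rw [show j + (n - j) = n by omega] at h13 h14
  rw [show 0 + i = i by omega, hR, List.append_nil] at h10
  rw [show 0 + i = i by omega, hv] at h9
  rw [← he] at h13 h11
  have hrunA := h5.trans' h9
  have hrunB := h13.trans' (h8.trans' h4)
  have hm1 : m1 = [] := by
    by_contra hne
    have hpos : 0 < m1.length := List.length_pos_iff.2 hne
    have hl' : cls δ.length γ.length (R i ++ μ0).length =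
        cls δ.length γ.length (m1.length + (R i ++ μ0).length) := by
      rw [hl, h12]
      simp only [List.length_append]
      congr 1
      omega
    obtain ⟨hD, t, ht⟩ := cls_eq hl' hpos
    obtain ⟨Q, hQ⟩ : δ <:+ R i ++ μ0 := by
      refine List.suffix_of_suffix_length_le (l₃ := B k ++ (rep k γ ++ δ)) ?_ ?_ hD
      · exact ⟨B k ++ rep k γ, by simp⟩
      · refine ⟨α2 ++ (β2 ++ (μ ++ (m2 ++ m1))), ?_⟩
        rw [← hw', h14, h12]
        simp
    have hw2 : α2 ++ (β2 ++ (μ ++ (m2 ++ (m1 ++ Q)))) = B k ++ rep k γ := by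
      have : (α2 ++ (β2 ++ (μ ++ (m2 ++ (m1 ++ Q))))) ++ δ = (B k ++ rep k γ) ++ δ := by
        rw [List.append_assoc (B k), ← hw', h14, h12]
        simp [hQ]
      exact List.append_cancel_right this
    have hlen2 : (μ ++ (m2 ++ (m1 ++ Q))).length ≤ (rep k γ).length := by
      have e := congrArg List.length hQ
      rw [h14, h12] at hb
      simp only [List.length_append] at hb e ⊢
      omega
    obtain ⟨τ, hτ⟩ : μ ++ (m2 ++ (m1 ++ Q)) <:+ rep k γ := by
      refine List.suffix_of_suffix_length_le (l₃ := B k ++ rep k γ) ?_ ?_ hlen2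
      · exact ⟨α2 ++ β2, by rw [← hw2]; simp⟩
      · exact ⟨B k, rfl⟩
    have hτ2 : α2 ++ β2 = B k ++ τ := by
      have : (α2 ++ β2) ++ (μ ++ (m2 ++ (m1 ++ Q))) = (B k ++ τ) ++ (μ ++ (m2 ++ (m1 ++ Q))) := by
        rw [List.append_assoc (B k), hτ, ← hw2]
        simp
      exact List.append_cancel_right this
    obtain ⟨htk, hrem⟩ := rep_remove (τ := τ ++ (μ ++ m2)) (μ := m1) (σ := Q) hγ
      (by rw [← hτ]; simp) ht
    have htpos : 0 < t := by
      rcases Nat.eq_zero_or_pos t with h | h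
      · rw [h] at ht; omega
      · exact h
    refine h2 (i + (n - j)) k (k - t) (by omega) ⟨_, _, f, hf, hrunA.trans' hrunB, ?_⟩
    rw [← hrem, rep_add]
    have e1 : B k ++ ((τ ++ (μ ++ m2) ++ Q) ++ δ) = α2 ++ (β2 ++ (μ ++ (m2 ++ (R i ++ μ0)))) := by
      rw [← hQ]
      have : B k ++ ((τ ++ (μ ++ m2) ++ Q) ++ δ) = (B k ++ τ) ++ (μ ++ (m2 ++ (Q ++ δ))) := by
        simp
      rw [this, ← hτ2]
      simp
    rw [e1, h10]
    simp
  subst hm1
  rw [List.nil_append] at h12
  refine ⟨v i, j - i, i, n - j, k, _, α2, _, f, by omega, h11, hrunA, hf, hrunB, ?_⟩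
  rw [← hw', h14, h12, h10]
  simp

end TwoHead

end Pool.Agent.W998
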