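import Pool.Agent.W998.LinCore

set_option autoImplicit false

/-!
# The witness languages, recurrent states and inverse a-gsm mappings
-/

namespace Pool.Agent.W998

open Pool.Agent.Results.MP_773080_lc.RocNotGPrincipal (rep rep_zero rep_succ rep_succ' rep_add
  rep_one rep_nil AGsm exists_idem G G_iff)

/-! ### Recurrent states -/

section recurrent

variable {Q : Type} {m : ℕ} (step : Q → List (Fin m) → Q)

/-- From every state which can be reached from `q` with letters `≥ i` one can return to `q` with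
letters `≥ i`. -/
def RecAt (i : ℕ) (q : Q) : Prop :=
  ∀ u : List (Fin m), (∀ a ∈ u, i ≤ a.val) →
    ∃ v : List (Fin m), (∀ a ∈ v, i ≤ a.val) ∧ step q (u ++ v) = q

/-- The states which can be reached with letters `≥ i`. -/
def Reach (i : ℕ) (q : Q) : Set Q := {p | ∃ u : List (Fin m), (∀ a ∈ u, i ≤ a.val) ∧ step q u = p}

variable {step}

theorem rec_exists [Finite Q] (hnil : ∀ q, step q [] = q)
    (happ : ∀ q u v, step q (u ++ v) = step (step q u) v) (i : ℕ) :
    ∀ (n : ℕ) (q : Q), (Reach step i q).ncard = n →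
      ∃ w : List (Fin m), (∀ a ∈ w, i ≤ a.val) ∧ RecAt step i (step q w) := by
  intro n
  induction n using Nat.strong_induction_on with
  | _ n ih =>
    intro q hq
    by_cases h : RecAt step i q
    · exact ⟨[], by simp, by rwa [hnil]⟩
    · unfold RecAt at h
      push Not at h
      obtain ⟨u, hu, hv⟩ := h
      have hsub : Reach step i (step q u) ⊂ Reach step i q := by
        refine ⟨?_, fun hcon => ?_⟩
        · rintro p ⟨w, hw, rfl⟩
          refine ⟨u ++ w, ?_, happ _ _ _⟩
          intro a ha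
          rcases List.mem_append.1 ha with ha | ha
          · exact hu a ha
          · exact hw a ha
        · obtain ⟨v, hv1, hv2⟩ := hcon ⟨[], by simp, hnil q⟩
          exact hv v hv1 (by rw [happ, hv2])
      have hlt := Set.ncard_lt_ncard hsub (Set.toFinite _)
      obtain ⟨w, hw1, hw2⟩ := ih _ (by rw [← hq]; exact hlt) (step q u) rfl
      refine ⟨u ++ w, ?_, by rw [happ]; exact hw2⟩
      intro a ha
      rcases List.mem_append.1 ha with ha | ha
      · exact hu a ha
      · exact hw1 a ha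

theorem rec_step (happ : ∀ q u v, step q (u ++ v) = step (step q u) v) {i : ℕ} {q : Q}
    (h : RecAt step i q) {w : List (Fin m)} (hw : ∀ a ∈ w, i ≤ a.val) :
    RecAt step i (step q w) := by
  intro u hu
  obtain ⟨v, hv, he⟩ := h (w ++ u) (by
    intro a ha
    rcases List.mem_append.1 ha with ha | ha
    · exact hw a ha
    · exact hu a ha)
  refine ⟨v ++ w, ?_, ?_⟩
  · intro a ha
    rcases List.mem_append.1 ha with ha | ha
    · exact hv a ha
    · exact hw a ha
  · rw [← List.append_assoc, happ _ (u ++ v), ← happ q w (u ++ v), ← List.append_assoc, he]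

theorem rec_all [Finite Q] (hnil : ∀ q, step q [] = q)
    (happ : ∀ q u v, step q (u ++ v) = step (step q u) v) (q : Q) (j : ℕ) :
    ∃ x : List (Fin m), ∀ i ≤ j, RecAt step i (step q x) := by
  induction j with
  | zero =>
    obtain ⟨w, _, hw⟩ := rec_exists hnil happ 0 _ q rfl
    refine ⟨w, fun i hi => ?_⟩
    rw [Nat.le_zero.1 hi]
    exact hw
  | succ j ih =>
    obtain ⟨x, hx⟩ := ih
    obtain ⟨w, hw1, hw⟩ := rec_exists hnil happ (j + 1) _ (step q x) rfl
    refine ⟨x ++ w, fun i hi => ?_⟩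
    rw [happ]
    rcases Nat.lt_or_ge i (j + 1) with h | h
    · exact rec_step happ (hx i (by omega)) (fun a ha => by have := hw1 a ha; omega)
    · have : i = j + 1 := by omega
      rw [this]
      exact hw

theorem exists_loop {q : Q} {i : ℕ} (h : RecAt step i q) :
    ∃ z : List (Fin m), (∀ a ∈ z, i ≤ a.val) ∧ (∀ a : Fin m, i ≤ a.val → a ∈ z) ∧
      step q z = q := by
  classical
  obtain ⟨v, hv, he⟩ := h ((List.finRange m).filter fun a => i ≤ a.val) (by simp)
  refine ⟨_, ?_, ?_, he⟩
  · intro a ha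
    rcases List.mem_append.1 ha with ha | ha
    · simpa using ha
    · exact hv a ha
  · intro a ha
    refine List.mem_append.2 (Or.inl ?_)
    simpa using ha

end recurrent

/-! ### The output of an a-gsm on blocks -/

section gsm

variable {X Y : Type}

theorem run_append (M : AGsm X Y) (p : M.State) (u v : List X) :
    M.run p (u ++ v) = M.run (M.run p u) v :=
  Pool.Agent.Results.MP_773080_lc.RocNotGPrincipal.AGsm.run_append M p u v

theorem output_append (M : AGsm X Y) (p : M.State) (u v : List X) :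
    M.output p (u ++ v) = M.output p u ++ M.output (M.run p u) v :=
  Pool.Agent.Results.MP_773080_lc.RocNotGPrincipal.AGsm.output_append M p u v

theorem run_rep (M : AGsm X Y) {p : M.State} {z : List X} (h : M.run p z = p) (n : ℕ) :
    M.run p (rep n z) = p ∧ M.output p (rep n z) = rep n (M.output p z) := by
  induction n with
  | zero => exact ⟨rfl, rfl⟩
  | succ n ih =>
    rw [rep_succ, run_append, output_append, h, ih.1, ih.2, rep_succ]
    exact ⟨rfl, rfl⟩

theorem run_replicate (M : AGsm X Y) (p : M.State) (b : X) (n : ℕ) :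
    M.run p (List.replicate n b) = (fun p => M.next p b)^[n] p := by
  induction n generalizing p with
  | zero => rfl
  | succ n ih => rw [List.replicate_succ, Function.iterate_succ_apply]; exact ih _

theorem replicate_eq_rep (b : X) (N n : ℕ) :
    List.replicate (N * n) b = rep n (List.replicate N b) := by
  induction n with
  | zero => simp
  | succ n ih =>
    rw [rep_succ', ← ih, List.replicate_append_replicate, Nat.mul_succ]

theorem exists_period (M : AGsm X Y) (b c : X) : ∃ N, 0 < N ∧ ∀ p,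
    M.run (M.run p (List.replicate N b)) (List.replicate N b) = M.run p (List.replicate N b) ∧
    M.run (M.run p (List.replicate N c)) (List.replicate N c) = M.run p (List.replicate N c) := by
  have := M.finState
  obtain ⟨n1, hn1, h1⟩ := exists_idem (fun p => M.next p b)
  obtain ⟨n2, hn2, h2⟩ := exists_idem (fun p => M.next p c)
  refine ⟨n1 * n2, Nat.mul_pos hn1 hn2, fun p => ⟨?_, ?_⟩⟩
  · rw [run_replicate, run_replicate, ← Function.iterate_add_apply]
    have e1 := h1 n2 hn2
    have e2 := h1 (n2 + n2) (by omega)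
    rw [show n1 * n2 + n1 * n2 = (n2 + n2) * n1 by ring, e2, show n1 * n2 = n2 * n1 by ring, e1]
  · rw [run_replicate, run_replicate, ← Function.iterate_add_apply]
    have e1 := h2 n1 hn1
    have e2 := h2 (n1 + n1) (by omega)
    rw [show n1 * n2 + n1 * n2 = (n1 + n1) * n2 by ring, e2, e1]

/-- The shape of the output on words `x b^(N (k + 1)) c^(N (l + 1)) d^n`. -/
theorem gsm_shape (M : AGsm X Y) (b c d : X) (s : M.State) :
    ∃ N, 0 < N ∧ ∃ (B : ℕ → List Y) (γ : List Y) (D : ℕ → List Y) (F : ℕ → Prop),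
      ∀ x : List X, M.run M.init x = s → ∀ (k l n : ℕ) (L : Language Y),
        x ++ (List.replicate (N * (k + 1)) b ++ (List.replicate (N * (l + 1)) c ++
          List.replicate n d)) ∈ M.inv L ↔
        F n ∧ M.output M.init x ++ (B k ++ (rep l γ ++ D n)) ∈ L := by
  obtain ⟨N, hN, h⟩ := exists_period M b c
  obtain ⟨p, hp⟩ : ∃ p, p = M.run s (List.replicate N b) := ⟨_, rfl⟩
  obtain ⟨r, hr⟩ : ∃ r, r = M.run p (List.replicate N c) := ⟨_, rfl⟩
  have hpp : M.run p (List.replicate N b) = p := by rw [hp]; exact (h _).1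
  have hrr : M.run r (List.replicate N c) = r := by rw [hr]; exact (h _).2
  refine ⟨N, hN, fun k => M.output s (List.replicate (N * (k + 1)) b) ++
    M.output p (List.replicate N c), M.output r (List.replicate N c),
    fun n => M.output r (List.replicate n d), fun n => M.run r (List.replicate n d) ∈ M.accept, ?_⟩
  intro x hx k l n L
  have e1 : M.run s (List.replicate (N * (k + 1)) b) = p := by
    rw [replicate_eq_rep, rep_succ, run_append, ← hp]
    exact (run_rep M hpp k).1
  have e2 : M.run p (List.replicate (N * (l + 1)) c) = r := by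
    rw [replicate_eq_rep, rep_succ, run_append, ← hr]
    exact (run_rep M hrr l).1
  have e3 : M.output p (List.replicate (N * (l + 1)) c) =
      M.output p (List.replicate N c) ++ rep l (M.output r (List.replicate N c)) := by
    rw [replicate_eq_rep, rep_succ, output_append, ← hr, (run_rep M hrr l).2]
  change M.run M.init _ ∈ M.accept ∧ M.output M.init _ ∈ L ↔ _
  rw [run_append, run_append, run_append, output_append, output_append, output_append, hx, e1, e2,
    e3]
  simp only [List.append_assoc]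

end gsm

/-! ### The witness languages -/

/-- The language of the words `x b^k c^k d^n` such that the letter of `x` at the position `n`
(counted from `1`) does not occur at a later position of `x`. The letters of `x` are the letters
`inl a`, and `b = inr 0`, `c = inr 1`, `d = inr 2`. -/
def K (m : ℕ) : Language (Fin m ⊕ Fin 3) :=
  {w | ∃ (u v : List (Fin m)) (a : Fin m) (k : ℕ), a ∉ v ∧
    w = (u ++ a :: v).map Sum.inl ++ (List.replicate k (Sum.inr 0) ++
      (List.replicate k (Sum.inr 1) ++ List.replicate (u.length + 1) (Sum.inr 2)))}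

/-- The letter of `x` at the position `n` does not occur later. -/
def Good {m : ℕ} (n : ℕ) (x : List (Fin m)) : Prop :=
  ∃ (u v : List (Fin m)) (a : Fin m), a ∉ v ∧ x = u ++ a :: v ∧ n = u.length + 1

theorem word_inj {m : ℕ} {x x' : List (Fin m)} {k l n k' l' n' : ℕ}
    (h : x.map Sum.inl ++ (List.replicate k (Sum.inr 0) ++
      (List.replicate l (Sum.inr 1) ++ List.replicate n (Sum.inr 2))) =
      (x'.map Sum.inl ++ (List.replicate k' (Sum.inr 0) ++
      (List.replicate l' (Sum.inr 1) ++ List.replicate n' (Sum.inr 2))) :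
        List (Fin m ⊕ Fin 3))) : x = x' ∧ k = k' ∧ l = l' ∧ n = n' := by
  have e3 := congrArg (List.filterMap Sum.getLeft?) h
  have e4 := congrArg (List.filterMap Sum.getRight?) h
  have hx : ∀ y : List (Fin m),
      List.filterMap Sum.getLeft? (y.map (Sum.inl : Fin m → Fin m ⊕ Fin 3)) = y := by
    intro y
    rw [List.filterMap_map]
    have : (Sum.getLeft? ∘ (Sum.inl : Fin m → Fin m ⊕ Fin 3)) = some := rfl
    rw [this, List.filterMap_some]
  have hx' : ∀ y : List (Fin m),
      List.filterMap Sum.getRight? (y.map (Sum.inl : Fin m → Fin m ⊕ Fin 3)) = [] := by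
    intro y
    simp [List.filterMap_eq_nil_iff]
  have hr : ∀ (n : ℕ) (i : Fin 3),
      List.filterMap Sum.getLeft? (List.replicate n (Sum.inr i : Fin m ⊕ Fin 3)) = [] := by
    intro n i
    simp [List.filterMap_eq_nil_iff]
  have hr' : ∀ (n : ℕ) (i : Fin 3),
      List.filterMap Sum.getRight? (List.replicate n (Sum.inr i : Fin m ⊕ Fin 3)) =
        List.replicate n i := by
    intro n i
    induction n with
    | zero => rfl
    | succ n ih => rw [List.replicate_succ, List.filterMap_cons, ih]; rfl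
  simp only [List.filterMap_append, hx, hr, List.append_nil] at e3
  simp only [List.filterMap_append, hx', hr', List.nil_append] at e4
  have e0 := congrArg (List.count 0) e4
  have e1 := congrArg (List.count 1) e4
  have e2 := congrArg (List.count 2) e4
  simp [List.count_replicate] at e0 e1 e2
  exact ⟨e3, e0, e1, e2⟩

theorem mem_K {m : ℕ} {x : List (Fin m)} {k l n : ℕ} :
    x.map Sum.inl ++ (List.replicate k (Sum.inr 0) ++
      (List.replicate l (Sum.inr 1) ++ List.replicate n (Sum.inr 2))) ∈ K m ↔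
      k = l ∧ Good n x := by
  constructor
  · rintro ⟨u, v, a, k', ha, h⟩
    obtain ⟨h1, h2, h3, h4⟩ := word_inj h
    exact ⟨by omega, u, v, a, ha, h1, h4⟩
  · rintro ⟨rfl, u, v, a, ha, rfl, rfl⟩
    exact ⟨u, v, a, k, ha, rfl⟩

/-- An automaton for `K m`. -/
def autK (m : ℕ) : TwoHead (Fin m ⊕ Fin 3) (Fin 4 ⊕ Fin m) where
  init := .inl 0
  lft q y p := (∃ x, q = .inl 1 ∧ y = .inl x ∧ p = .inl 0) ∨
    (∃ a, q = .inl 1 ∧ y = .inl a ∧ p = .inr a) ∨
    (∃ a x, q = .inr a ∧ x ≠ a ∧ y = .inl x ∧ p = .inr a) ∨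
    (q = .inl 2 ∧ y = .inr 0 ∧ p = .inl 3)
  rgt q y p := (q = .inl 0 ∧ y = .inr 2 ∧ p = .inl 1) ∨ (q = .inl 3 ∧ y = .inr 1 ∧ p = .inl 2)
  eps q p := ∃ a, q = .inr a ∧ p = .inl 2
  fin q := q = .inl 2

/-- The words read from the states. -/
def Spec (m : ℕ) (q : Fin 4 ⊕ Fin m) (α β : List (Fin m ⊕ Fin 3)) : Prop :=
  (q = .inl 0 → ∃ (u v : List (Fin m)) (a : Fin m) (k : ℕ), a ∉ v ∧
    α = (u ++ a :: v).map Sum.inl ++ List.replicate k (Sum.inr 0) ∧
    β = List.replicate k (Sum.inr 1) ++ List.replicate (u.length + 1) (Sum.inr 2)) ∧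
  (q = .inl 1 → ∃ (u v : List (Fin m)) (a : Fin m) (k : ℕ), a ∉ v ∧
    α = (u ++ a :: v).map Sum.inl ++ List.replicate k (Sum.inr 0) ∧
    β = List.replicate k (Sum.inr 1) ++ List.replicate u.length (Sum.inr 2)) ∧
  (q = .inl 2 → ∃ k : ℕ, α = List.replicate k (Sum.inr 0) ∧ β = List.replicate k (Sum.inr 1)) ∧
  (q = .inl 3 → ∃ k : ℕ, α = List.replicate k (Sum.inr 0) ∧
    β = List.replicate (k + 1) (Sum.inr 1)) ∧
  (∀ a, q = .inr a → ∃ (v : List (Fin m)) (k : ℕ), a ∉ v ∧
    α = v.map Sum.inl ++ List.replicate k (Sum.inr 0) ∧ β = List.replicate k (Sum.inr 1))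

theorem spec_of_run {m : ℕ} {q f : Fin 4 ⊕ Fin m} {α β : List (Fin m ⊕ Fin 3)}
    (h : (autK m).Run q α β f) (hf : f = .inl 2) : Spec m q α β := by
  induction h with
  | nil q =>
    subst hf
    refine ⟨by simp, by simp, fun _ => ⟨0, rfl, rfl⟩, by simp, by simp⟩
  | @left q p r y α β h hr ih =>
    obtain ⟨i0, i1, i2, i3, i4⟩ := ih hf
    rcases h with ⟨x, rfl, rfl, rfl⟩ | ⟨a, rfl, rfl, rfl⟩ | ⟨a, x, rfl, hx, rfl, rfl⟩ |
      ⟨rfl, rfl, rfl⟩
    · obtain ⟨u, v, a, k, ha, h1, h2⟩ := i0 rfl
      refine ⟨by simp, fun _ => ⟨x :: u, v, a, k, ha, by rw [h1]; simp, by rw [h2]; simp⟩,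
        by simp, by simp, by simp⟩
    · obtain ⟨v, k, ha, h1, h2⟩ := i4 a rfl
      refine ⟨by simp, fun _ => ⟨[], v, a, k, ha, by rw [h1]; simp, by rw [h2]; simp⟩,
        by simp, by simp, by simp⟩
    · obtain ⟨v, k, ha, h1, h2⟩ := i4 a rfl
      refine ⟨by simp, by simp, by simp, by simp, ?_⟩
      intro a' ha'
      obtain rfl : a = a' := by simpa using ha'
      exact ⟨x :: v, k, by simp [ha, hx.symm], by rw [h1]; simp, h2⟩
    · obtain ⟨k, h1, h2⟩ := i3 rfl
      exact ⟨by simp, by simp, fun _ => ⟨k + 1, by rw [h1]; rfl, h2⟩, by simp, by simp⟩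
  | @right q p r y α β h hr ih =>
    obtain ⟨i0, i1, i2, i3, i4⟩ := ih hf
    rcases h with ⟨rfl, rfl, rfl⟩ | ⟨rfl, rfl, rfl⟩
    · obtain ⟨u, v, a, k, ha, h1, h2⟩ := i1 rfl
      refine ⟨fun _ => ⟨u, v, a, k, ha, h1, ?_⟩, by simp, by simp, by simp, by simp⟩
      rw [h2, List.append_assoc]
      congr 1
      rw [List.replicate_succ']
    · obtain ⟨k, h1, h2⟩ := i2 rfl
      refine ⟨by simp, by simp, by simp, fun _ => ⟨k, h1, ?_⟩, by simp⟩
      rw [h2, List.replicate_succ']
  | @eps q p r α β h hr ih =>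
    obtain ⟨i0, i1, i2, i3, i4⟩ := ih hf
    obtain ⟨a, rfl, rfl⟩ := h
    obtain ⟨k, h1, h2⟩ := i2 rfl
    refine ⟨by simp, by simp, by simp, by simp, ?_⟩
    intro a' _
    exact ⟨[], k, by simp, by simpa using h1, h2⟩

theorem run_cen {m : ℕ} (k : ℕ) : (autK m).Run (.inl 2) (List.replicate k (Sum.inr 0))
    (List.replicate k (Sum.inr 1)) (.inl 2) := by
  induction k with
  | zero => exact TwoHead.Run.nil _
  | succ k ih =>
    rw [List.replicate_succ, List.replicate_succ']
    exact TwoHead.Run.left (p := .inl 3) (Or.inr (Or.inr (Or.inr ⟨rfl, rfl, rfl⟩)))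
      (TwoHead.Run.right (p := .inl 2) (Or.inr ⟨rfl, rfl, rfl⟩) ih)

theorem run_tail {m : ℕ} (k : ℕ) (a : Fin m) (v : List (Fin m)) (hv : a ∉ v) :
    (autK m).Run (.inr a) (v.map Sum.inl ++ List.replicate k (Sum.inr 0))
    (List.replicate k (Sum.inr 1)) (.inl 2) := by
  induction v with
  | nil => exact TwoHead.Run.eps ⟨a, rfl, rfl⟩ (run_cen k)
  | cons x v ih =>
    rw [List.mem_cons, not_or] at hv
    exact TwoHead.Run.left (p := .inr a) (Or.inr (Or.inr (Or.inl ⟨a, x, rfl, Ne.symm hv.1, rfl, rfl⟩)))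
      (ih hv.2)

theorem run_start {m : ℕ} (k : ℕ) (a : Fin m) (u v : List (Fin m)) (hv : a ∉ v) :
    (autK m).Run (.inl 0) ((u ++ a :: v).map Sum.inl ++ List.replicate k (Sum.inr 0))
    (List.replicate k (Sum.inr 1) ++ List.replicate (u.length + 1) (Sum.inr 2)) (.inl 2) := by
  induction u with
  | nil =>
    exact TwoHead.Run.right (p := .inl 1) (Or.inl ⟨rfl, rfl, rfl⟩)
      (TwoHead.Run.left (p := .inr a) (Or.inr (Or.inl ⟨a, rfl, rfl, rfl⟩)) (run_tail k a v hv))
  | cons x u ih =>
    have h1 := TwoHead.Run.left (A := autK m) (p := .inl 0) (Or.inl ⟨x, rfl, rfl, rfl⟩) ih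
    have h2 := TwoHead.Run.right (A := autK m) (p := .inl 1) (Or.inl ⟨rfl, rfl, rfl⟩) h1
    rw [List.append_assoc, ← List.replicate_succ'] at h2
    exact h2

theorem language_autK (m : ℕ) : (autK m).language = K m := by
  ext w
  constructor
  · rintro ⟨α, β, f, hf, h, rfl⟩
    obtain ⟨u, v, a, k, ha, rfl, rfl⟩ := (spec_of_run h hf).1 rfl
    exact ⟨u, v, a, k, ha, by simp⟩
  · rintro ⟨u, v, a, k, ha, rfl⟩
    exact ⟨_, _, .inl 2, rfl, run_start k a u v ha, by simp⟩

end Pool.Agent.W998
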