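import Mathlib
import Pool.Agent.H540R2.Lin.Defs

set_option autoImplicit false

/-!
# Linear grammars and automata reading a word from both ends
-/

namespace Pool.Agent.W998

open Pool.Agent.H540R2

/-- An automaton which reads a word from both ends. -/
structure TwoHead (Y V : Type) where
  init : V
  lft : V → Y → V → Prop
  rgt : V → Y → V → Prop
  eps : V → V → Prop
  fin : V → Prop

namespace TwoHead

variable {Y V : Type}

/-- `A.Run q α β r`: from `q` the automaton reads `α` on the left and `β` on the right (the last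
letter of `β` first) and ends in `r`. -/
inductive Run (A : TwoHead Y V) : V → List Y → List Y → V → Prop
  | nil (q : V) : Run A q [] [] q
  | left {q p r : V} {y : Y} {α β : List Y} (h : A.lft q y p) (hr : Run A p α β r) :
      Run A q (y :: α) β r
  | right {q p r : V} {y : Y} {α β : List Y} (h : A.rgt q y p) (hr : Run A p α β r) :
      Run A q α (β ++ [y]) r
  | eps {q p r : V} {α β : List Y} (h : A.eps q p) (hr : Run A p α β r) :
      Run A q α β r

variable {A : TwoHead Y V}

/-- The language. -/
def language (A : TwoHead Y V) : Language Y :=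
  {w | ∃ α β f, A.fin f ∧ A.Run A.init α β f ∧ w = α ++ β}

theorem Run.trans' {q r t : V} {α β γ δ : List Y} (h1 : A.Run q α β r) (h2 : A.Run r γ δ t) :
    A.Run q (α ++ γ) (δ ++ β) t := by
  induction h1 with
  | nil q => simpa using h2
  | left h _ ih => exact Run.left h (ih h2)
  | right h _ ih =>
    rw [← List.append_assoc]
    exact Run.right h (ih h2)
  | eps h _ ih => exact Run.eps h (ih h2)

/-- Splitting a run when a given number of letters has been read on the left. -/
theorem Run.split_left {q t : V} {α β : List Y} (h : A.Run q α β t) :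
    ∀ n ≤ α.length, ∃ r β1 β2, A.Run q (α.take n) β1 r ∧ A.Run r (α.drop n) β2 t ∧
      β = β2 ++ β1 := by
  induction h with
  | nil q =>
    intro n hn
    exact ⟨q, [], [], by simpa using Run.nil q, by simpa using Run.nil q, rfl⟩
  | @left q p r y α β h hr ih =>
    intro n hn
    rcases n with _ | n
    · exact ⟨q, [], β, by simpa using Run.nil q, by simpa using Run.left h hr, by simp⟩
    · obtain ⟨s, β1, β2, h1, h2, h3⟩ := ih n (by simpa using hn)
      exact ⟨s, β1, β2, by simpa using Run.left h h1, by simpa using h2, h3⟩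
  | @right q p r y α β h hr ih =>
    intro n hn
    obtain ⟨s, β1, β2, h1, h2, h3⟩ := ih n hn
    exact ⟨s, β1 ++ [y], β2, Run.right h h1, h2, by rw [h3, List.append_assoc]⟩
  | @eps q p r α β h hr ih =>
    intro n hn
    obtain ⟨s, β1, β2, h1, h2, h3⟩ := ih n hn
    exact ⟨s, β1, β2, Run.eps h h1, h2, h3⟩

/-- Splitting a run when a given number of letters has been read on the right. -/
theorem Run.split_right {q t : V} {α β : List Y} (h : A.Run q α β t) :
    ∀ n ≤ β.length, ∃ r α1 α2 β1 β2, A.Run q α1 β1 r ∧ A.Run r α2 β2 t ∧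
      α = α1 ++ α2 ∧ β = β2 ++ β1 ∧ β1.length = n := by
  induction h with
  | nil q =>
    intro n hn
    refine ⟨q, [], [], [], [], Run.nil q, Run.nil q, rfl, rfl, ?_⟩
    have : n = 0 := by simpa using hn
    simp [this]
  | @left q p r y α β h hr ih =>
    intro n hn
    obtain ⟨s, α1, α2, β1, β2, h1, h2, h3, h4, h5⟩ := ih n hn
    exact ⟨s, y :: α1, α2, β1, β2, Run.left h h1, h2, by rw [h3]; rfl, h4, h5⟩
  | @right q p r y α β h hr ih =>
    intro n hn
    rcases n with _ | n
    · exact ⟨q, [], α, [], β ++ [y], Run.nil q, Run.right h hr, rfl, by simp, rfl⟩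
    · obtain ⟨s, α1, α2, β1, β2, h1, h2, h3, h4, h5⟩ := ih n (by simpa using hn)
      exact ⟨s, α1, α2, β1 ++ [y], β2, Run.right h h1, h2, h3, by rw [h4, List.append_assoc],
        by simp [h5]⟩
  | @eps q p r α β h hr ih =>
    intro n hn
    obtain ⟨s, α1, α2, β1, β2, h1, h2, h3, h4, h5⟩ := ih n hn
    exact ⟨s, α1, α2, β1, β2, Run.eps h h1, h2, h3, h4, h5⟩

end TwoHead

/-! ### From linear grammars to automata -/

section fromGrammar

variable {Y : Type} (G : ContextFreeGrammar Y)

/-- the states of the automaton of a grammar: factors of right-hand sides -/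
def States : Set (List (Symbol Y G.NT)) :=
  {s | s = [Symbol.nonterminal G.initial] ∨ ∃ r ∈ G.rules, s <:+: r.output}

theorem states_finite : (States G).Finite := by
  have h : States G ⊆ {[Symbol.nonterminal G.initial]} ∪
      ⋃ r ∈ G.rules, {s | s ∈ r.output.tails.flatMap List.inits} := by
    rintro s (h | ⟨r, hr, h⟩)
    · exact Or.inl h
    · refine Or.inr ?_
      simp only [Set.mem_iUnion]
      refine ⟨r, hr, ?_⟩
      obtain ⟨a, b, hab⟩ := h
      simp only [Set.mem_ofPred_eq, List.mem_flatMap, List.mem_tails, List.mem_inits]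
      exact ⟨s ++ b, ⟨a, by rw [← hab, List.append_assoc]⟩, ⟨b, rfl⟩⟩
  refine Set.Finite.subset ?_ h
  refine (Set.finite_singleton _).union ?_
  refine Set.Finite.biUnion (Finset.finite_toSet _) fun r _ => ?_
  exact List.finite_toSet _

/-- the automaton of a grammar -/
def aut : TwoHead Y (List (Symbol Y G.NT)) where
  init := [Symbol.nonterminal G.initial]
  lft s y t := s = Symbol.terminal y :: t
  rgt s y t := s = t ++ [Symbol.terminal y]
  eps s t := ∃ r ∈ G.rules, s = [Symbol.nonterminal r.input] ∧ t = r.output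
  fin s := s = []

theorem aut_states {s t : List (Symbol Y G.NT)} {α β : List Y} (h : (aut G).Run s α β t)
    (hs : s ∈ States G) : t ∈ States G := by
  induction h with
  | nil q => exact hs
  | @left q p r y α β h hr ih =>
    refine ih ?_
    have h : q = Symbol.terminal y :: p := h
    rcases hs with hs | ⟨r, hr, hs⟩
    · rw [h] at hs
      simp at hs
    · refine Or.inr ⟨r, hr, List.IsInfix.trans ?_ hs⟩
      rw [h]
      exact (List.suffix_cons _ _).isInfix
  | @right q p r y α β h hr ih =>
    refine ih ?_
    have h : q = p ++ [Symbol.terminal y] := h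
    rcases hs with hs | ⟨r, hr, hs⟩
    · rw [h] at hs
      rcases p with _ | ⟨a, p⟩ <;> simp at hs
    · refine Or.inr ⟨r, hr, List.IsInfix.trans ?_ hs⟩
      rw [h]
      exact (List.prefix_append _ _).isInfix
  | @eps q p r α β h hr ih =>
    obtain ⟨ru, h1, _, h3⟩ := h
    exact ih (Or.inr ⟨ru, h1, by rw [h3]⟩)

theorem derives_of_run {s t : List (Symbol Y G.NT)} {α β : List Y} (h : (aut G).Run s α β t) :
    G.Derives s (α.map Symbol.terminal ++ t ++ β.map Symbol.terminal) := by
  induction h with
  | nil q => simpa using ContextFreeGrammar.Derives.refl _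
  | @left q p r y α β h hr ih =>
    have h : q = Symbol.terminal y :: p := h
    rw [h]
    simpa using ih.append_left [Symbol.terminal y]
  | @right q p r y α β h hr ih =>
    have h : q = p ++ [Symbol.terminal y] := h
    rw [h]
    simpa using ih.append_right [Symbol.terminal y]
  | @eps q p r α β h hr ih =>
    obtain ⟨ru, h1, h2, h3⟩ := h
    rw [h2]
    rw [h3] at ih
    refine ContextFreeGrammar.Produces.trans_derives ⟨ru, h1, ?_⟩ ih
    exact ContextFreeRule.Rewrites.input_output

theorem run_left_word (u : List Y) (s : List (Symbol Y G.NT)) :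
    (aut G).Run (u.map Symbol.terminal ++ s) u [] s := by
  induction u with
  | nil => exact TwoHead.Run.nil _
  | cons y u ih => exact TwoHead.Run.left rfl ih

theorem run_right_word (v : List Y) (s : List (Symbol Y G.NT)) :
    (aut G).Run (s ++ v.map Symbol.terminal) [] v s := by
  induction v using List.reverseRecOn with
  | nil => simpa using TwoHead.Run.nil _
  | append_singleton v y ih =>
    refine TwoHead.Run.right (p := s ++ v.map Symbol.terminal) ?_ ih
    show _ = _
    simp

theorem derives_terminal {z : List Y} {q : List (Symbol Y G.NT)}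
    (h : G.Derives (z.map Symbol.terminal) q) : q = z.map Symbol.terminal := by
  induction h with
  | refl => rfl
  | tail _ h ih =>
    obtain ⟨r, hr, h⟩ := h
    rw [ih] at h
    have := h.nonterminal_input_mem
    simp at this

theorem unique_nt {N : Type} {u v : List Y} {C D : N} {p q : List (Symbol Y N)}
    (h : u.map Symbol.terminal ++ [Symbol.nonterminal C] ++ v.map Symbol.terminal =
      p ++ [Symbol.nonterminal D] ++ q) :
    p = u.map Symbol.terminal ∧ C = D ∧ q = v.map Symbol.terminal := by
  induction u generalizing p with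
  | nil =>
    rcases p with _ | ⟨a, p⟩
    · simp at h
      exact ⟨rfl, h.1, h.2.symm⟩
    · exfalso
      simp only [List.map_nil, List.nil_append, List.cons_append, List.cons.injEq] at h
      have : (Symbol.nonterminal D : Symbol Y N) ∈ v.map Symbol.terminal := by
        rw [h.2]
        simp
      simp at this
  | cons y u ih =>
    rcases p with _ | ⟨a, p⟩
    · simp at h
    · simp only [List.map_cons, List.cons_append, List.cons.injEq] at h
      obtain ⟨h1, h2, h3⟩ := ih h.2
      exact ⟨by rw [h1, ← h.1]; rfl, h2, h3⟩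

theorem run_of_derives (hG : IsLinear G) {w : List Y} {p : List (Symbol Y G.NT)}
    (h : G.Derives p (w.map Symbol.terminal)) :
    ∀ (u v : List Y) (C : G.NT),
      p = u.map Symbol.terminal ++ [Symbol.nonterminal C] ++ v.map Symbol.terminal →
      ∃ α β, (aut G).Run [Symbol.nonterminal C] α β [] ∧ w = u ++ (α ++ β) ++ v := by
  induction h using Relation.ReflTransGen.head_induction_on with
  | refl =>
    intro u v C h
    exfalso
    have : (Symbol.nonterminal C : Symbol Y G.NT) ∈ w.map Symbol.terminal := by
      rw [h]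
      simp
    simp at this
  | @head p p1 h1 h2 ih =>
    intro u v C hp
    obtain ⟨r, hr, h1⟩ := h1
    obtain ⟨p', q', h3, h4⟩ := h1.exists_parts
    rw [hp] at h3
    obtain ⟨h5, h6, h7⟩ := unique_nt h3
    subst h6
    rcases hG r hr with ⟨u1, v1, B, h8⟩ | ⟨u1, h8⟩
    · obtain ⟨α, β, h9, h10⟩ := ih (u ++ u1) (v1 ++ v) B (by
        rw [h4, h5, h7, h8]
        simp)
      refine ⟨u1 ++ α, β ++ v1, ?_, by rw [h10]; simp⟩
      refine TwoHead.Run.eps ⟨r, hr, rfl, rfl⟩ ?_
      rw [h8, List.append_assoc]
      have h11 := (run_left_word G u1 ([Symbol.nonterminal B] ++ v1.map Symbol.terminal)).trans'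
        ((run_right_word G v1 [Symbol.nonterminal B]).trans' h9)
      simpa using h11
    · have h9 : p1 = (u ++ u1 ++ v).map Symbol.terminal := by
        rw [h4, h5, h7, h8]
        simp
      rw [h9] at h2
      have h10 := derives_terminal G h2
      have h11 : w = u ++ u1 ++ v :=
        List.map_injective_iff.2 (fun a b h => by simpa using h) h10
      refine ⟨u1, [], ?_, by rw [h11]; simp⟩
      refine TwoHead.Run.eps ⟨r, hr, rfl, rfl⟩ ?_
      rw [h8]
      simpa using run_left_word G u1 []

/-- The language of a linear grammar is the language of an automaton with finitely many states. -/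
theorem language_aut (hG : IsLinear G) : (aut G).language = G.language := by
  ext w
  constructor
  · rintro ⟨α, β, f, hf, h, rfl⟩
    have hf : f = [] := hf
    subst hf
    have := derives_of_run G h
    rw [ContextFreeGrammar.mem_language_iff]
    simpa [aut] using this
  · intro h
    rw [ContextFreeGrammar.mem_language_iff] at h
    obtain ⟨α, β, h1, h2⟩ := run_of_derives G hG h [] [] G.initial (by simp)
    exact ⟨α, β, [], rfl, h1, by simpa using h2⟩

end fromGrammar

/-! ### From automata to linear grammars -/

section toGrammar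

variable {Y V : Type} (A : TwoHead Y V)

/-- the rules of the grammar of an automaton -/
def ruleSet : Set (ContextFreeRule Y V) :=
  {r | (∃ q y p, A.lft q y p ∧ r = ⟨q, [Symbol.terminal y, Symbol.nonterminal p]⟩) ∨
    (∃ q y p, A.rgt q y p ∧ r = ⟨q, [Symbol.nonterminal p, Symbol.terminal y]⟩) ∨
    (∃ q p, A.eps q p ∧ r = ⟨q, [Symbol.nonterminal p]⟩) ∨
    ∃ q, A.fin q ∧ r = ⟨q, []⟩}

variable [Finite Y] [Finite V]

theorem ruleSet_finite : (ruleSet A).Finite := by
  have h : ruleSet A ⊆
      Set.range (fun t : V × Y × V => (⟨t.1, [Symbol.terminal t.2.1, Symbol.nonterminal t.2.2]⟩ :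
        ContextFreeRule Y V)) ∪
      (Set.range (fun t : V × Y × V => (⟨t.1, [Symbol.nonterminal t.2.2, Symbol.terminal t.2.1]⟩ :
        ContextFreeRule Y V)) ∪
      (Set.range (fun t : V × V => (⟨t.1, [Symbol.nonterminal t.2]⟩ : ContextFreeRule Y V)) ∪
      Set.range (fun t : V => (⟨t, []⟩ : ContextFreeRule Y V)))) := by
    rintro r (⟨q, y, p, _, rfl⟩ | ⟨q, y, p, _, rfl⟩ | ⟨q, p, _, rfl⟩ | ⟨q, _, rfl⟩)
    · exact Or.inl ⟨(q, y, p), rfl⟩
    · exact Or.inr (Or.inl ⟨(q, y, p), rfl⟩)
    · exact Or.inr (Or.inr (Or.inl ⟨(q, p), rfl⟩))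
    · exact Or.inr (Or.inr (Or.inr ⟨q, rfl⟩))
  refine Set.Finite.subset ?_ h
  exact (Set.finite_range _).union ((Set.finite_range _).union
    ((Set.finite_range _).union (Set.finite_range _)))

/-- the grammar of an automaton -/
noncomputable def gram : ContextFreeGrammar Y where
  NT := V
  initial := A.init
  rules := (ruleSet_finite A).toFinset

end toGrammar

section toGrammar'

variable {Y : Type} {g : ContextFreeGrammar Y} (A : TwoHead Y g.NT)
  (hrules : ∀ r, r ∈ g.rules ↔ r ∈ ruleSet A)

include hrules

theorem gram_linear : IsLinear g := by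
  intro r hr
  rw [hrules] at hr
  rcases hr with ⟨q, y, p, _, rfl⟩ | ⟨q, y, p, _, rfl⟩ | ⟨q, p, _, rfl⟩ | ⟨q, _, rfl⟩
  · exact Or.inl ⟨[y], [], p, rfl⟩
  · exact Or.inl ⟨[], [y], p, rfl⟩
  · exact Or.inl ⟨[], [], p, rfl⟩
  · exact Or.inr ⟨[], rfl⟩

theorem gram_step {q : g.NT} {o : List (Symbol Y g.NT)}
    (h : (⟨q, o⟩ : ContextFreeRule Y g.NT) ∈ ruleSet A) :
    g.Produces [Symbol.nonterminal q] o :=
  ⟨⟨q, o⟩, (hrules _).2 h, ContextFreeRule.Rewrites.input_output (r := ⟨q, o⟩)⟩

theorem gram_derives {q p : g.NT} {α β : List Y} (h : A.Run q α β p) :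
    g.Derives [Symbol.nonterminal q]
      (α.map Symbol.terminal ++ [Symbol.nonterminal p] ++ β.map Symbol.terminal) := by
  induction h with
  | nil q => simpa using ContextFreeGrammar.Derives.refl (g := g) _
  | @left q p r y α β h hr ih =>
    refine (gram_step A hrules (Or.inl ⟨q, y, p, h, rfl⟩)).trans_derives ?_
    simpa using ih.append_left [Symbol.terminal y]
  | @right q p r y α β h hr ih =>
    refine (gram_step A hrules (Or.inr (Or.inl ⟨q, y, p, h, rfl⟩))).trans_derives ?_
    simpa using ih.append_right [Symbol.terminal y]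
  | @eps q p r α β h hr ih =>
    exact (gram_step A hrules (Or.inr (Or.inr (Or.inl ⟨q, p, h, rfl⟩)))).trans_derives ih

theorem gram_run {w : List Y} {p : List (Symbol Y g.NT)}
    (h : g.Derives p (w.map Symbol.terminal)) :
    ∀ (u v : List Y) (C : g.NT),
      p = u.map Symbol.terminal ++ [Symbol.nonterminal C] ++ v.map Symbol.terminal →
      ∃ α β f, A.fin f ∧ A.Run C α β f ∧ w = u ++ (α ++ β) ++ v := by
  induction h using Relation.ReflTransGen.head_induction_on with
  | refl =>
    intro u v C h
    exfalso
    have : (Symbol.nonterminal C : Symbol Y g.NT) ∈ w.map Symbol.terminal := by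
      rw [h]
      simp
    simp at this
  | @head p p1 h1 h2 ih =>
    intro u v C hp
    obtain ⟨r, hr, h1⟩ := h1
    obtain ⟨p', q', h3, h4⟩ := h1.exists_parts
    rw [hp] at h3
    obtain ⟨h5, h6, h7⟩ := unique_nt h3
    rw [hrules] at hr
    rcases hr with ⟨q, y, p2, h, rfl⟩ | ⟨q, y, p2, h, rfl⟩ | ⟨q, p2, h, rfl⟩ | ⟨q, h, rfl⟩
    · have h6 : C = q := h6
      subst h6
      obtain ⟨α, β, f, hf, h9, h10⟩ := ih (u ++ [y]) v p2 (by rw [h4, h5, h7]; simp)
      exact ⟨y :: α, β, f, hf, TwoHead.Run.left h h9, by rw [h10]; simp⟩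
    · have h6 : C = q := h6
      subst h6
      obtain ⟨α, β, f, hf, h9, h10⟩ := ih u (y :: v) p2 (by rw [h4, h5, h7]; simp)
      exact ⟨α, β ++ [y], f, hf, TwoHead.Run.right h h9, by rw [h10]; simp⟩
    · have h6 : C = q := h6
      subst h6
      obtain ⟨α, β, f, hf, h9, h10⟩ := ih u v p2 (by rw [h4, h5, h7])
      exact ⟨α, β, f, hf, TwoHead.Run.eps h h9, h10⟩
    · have h6 : C = q := h6
      subst h6
      have h9 : p1 = (u ++ v).map Symbol.terminal := by
        rw [h4, h5, h7]
        simp
      rw [h9] at h2
      have h10 := derives_terminal g h2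
      have h11 : w = u ++ v :=
        List.map_injective_iff.2 (fun a b h => by simpa using h) h10
      exact ⟨[], [], C, h, TwoHead.Run.nil _, by rw [h11]; simp⟩

theorem language_gram' (hi : g.initial = A.init) : g.language = A.language := by
  ext w
  constructor
  · intro h
    rw [ContextFreeGrammar.mem_language_iff, hi] at h
    obtain ⟨α, β, f, hf, h1, h2⟩ := gram_run A hrules h [] [] A.init (by simp)
    exact ⟨α, β, f, hf, h1, by simpa using h2⟩
  · rintro ⟨α, β, f, hf, h, rfl⟩
    rw [ContextFreeGrammar.mem_language_iff, hi]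
    refine (gram_derives A hrules h).trans ?_
    have h1 := gram_step A hrules (Or.inr (Or.inr (Or.inr ⟨f, hf, rfl⟩)))
    have h2 := (h1.append_left (α.map Symbol.terminal)).append_right (β.map Symbol.terminal)
    simpa using h2.single

end toGrammar'

/-- The language of an automaton is the language of a linear grammar. -/
theorem exists_gram {Y V : Type} [Finite Y] [Finite V] (A : TwoHead Y V) :
    ∃ g : ContextFreeGrammar Y, IsLinear g ∧ g.language = A.language := by
  have h : ∀ r, r ∈ (gram A).rules ↔ r ∈ ruleSet (Y := Y) (V := (gram A).NT) A := fun r =>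
    (ruleSet_finite A).mem_toFinset
  exact ⟨gram A, gram_linear (g := gram A) A h, language_gram' (g := gram A) A h rfl⟩

end Pool.Agent.W998
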